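import Pool.Agent.N206.HJ.Stm

set_option autoImplicit false

namespace Pool.Agent.N921.HJ.SS

open Pool.Agent.N206.HJ

section

variable {G : Type} [Group G] (H : Subgroup G) (φ : H →* G)

/-- coset representatives -/
noncomputable def rep (x : G ⧸ H) : G := Quotient.out x

theorem rep_eq (x : G ⧸ H) : ((rep H x : G) : G ⧸ H) = x := QuotientGroup.out_eq' x

/-- the cocycle -/
noncomputable def c (g : G) (x : G ⧸ H) : G := (rep H (g • x))⁻¹ * g * rep H x

theorem c_mem (g : G) (x : G ⧸ H) : c H g x ∈ H := by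
  have h1 : ((rep H (g • x) : G) : G ⧸ H) = ((g * rep H x : G) : G ⧸ H) := by
    rw [rep_eq]
    have : ((g * rep H x : G) : G ⧸ H) = g • ((rep H x : G) : G ⧸ H) := rfl
    rw [this, rep_eq]
  have h2 := QuotientGroup.eq.mp h1
  rw [c, mul_assoc]
  exact h2

theorem c_mul (g g' : G) (x : G ⧸ H) : c H (g * g') x = c H g (g' • x) * c H g' x := by
  unfold c
  rw [mul_smul]
  group

theorem c_one (x : G ⧸ H) : c H 1 x = 1 := by
  unfold c
  rw [one_smul]
  group

/-- the sections -/
noncomputable def st (g : G) (x : G ⧸ H) : G := φ ⟨c H g x, c_mem H g x⟩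

theorem st_mul (g g' : G) (x : G ⧸ H) :
    st H φ (g * g') x = st H φ g (g' • x) * st H φ g' x := by
  unfold st
  rw [← map_mul]
  congr 1
  exact Subtype.ext (c_mul H g g' x)

theorem st_one (x : G ⧸ H) : st H φ 1 x = 1 := by
  unfold st
  have : (⟨c H 1 x, c_mem H 1 x⟩ : H) = 1 := Subtype.ext (c_one H x)
  rw [this, map_one]

/-- the action on words -/
noncomputable def act0 : List (G ⧸ H) → G → List (G ⧸ H)
  | [], _ => []
  | x :: w, g => (g • x) :: act0 w (st H φ g x)

theorem act0_cons (x : G ⧸ H) (w : List (G ⧸ H)) (g : G) :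
    act0 H φ (x :: w) g = (g • x) :: act0 H φ w (st H φ g x) := rfl

theorem act0_one (w : List (G ⧸ H)) : act0 H φ w 1 = w := by
  induction w with
  | nil => rfl
  | cons x w ih => rw [act0_cons, st_one, ih, one_smul]

theorem act0_mul (w : List (G ⧸ H)) :
    ∀ g g' : G, act0 H φ w (g * g') = act0 H φ (act0 H φ w g') g := by
  induction w with
  | nil => intro g g'; rfl
  | cons x w ih =>
    intro g g'
    rw [act0_cons, act0_cons, act0_cons, st_mul, ih, mul_smul]

/-- the action on words as a homomorphism -/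
noncomputable def act : G →* Equiv.Perm (List (G ⧸ H)) where
  toFun g :=
    { toFun := fun w => act0 H φ w g
      invFun := fun w => act0 H φ w g⁻¹
      left_inv := by
        intro w
        change act0 H φ (act0 H φ w g) g⁻¹ = w
        rw [← act0_mul, inv_mul_cancel, act0_one]
      right_inv := by
        intro w
        change act0 H φ (act0 H φ w g⁻¹) g = w
        rw [← act0_mul, mul_inv_cancel, act0_one] }
  map_one' := by
    ext1 w
    exact act0_one H φ w
  map_mul' := by
    intro g g'
    ext1 w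
    exact act0_mul H φ w g g'

theorem act_cons (x : G ⧸ H) (w : List (G ⧸ H)) (g : G) :
    act H φ g (x :: w) = (g • x) :: act H φ (st H φ g x) w := rfl

theorem ker_smul {g : G} (hg : g ∈ (act H φ).ker) (x : G ⧸ H) : g • x = x := by
  rw [MonoidHom.mem_ker] at hg
  have h1 : act H φ g [x] = [x] := by rw [hg]; rfl
  rw [act_cons] at h1
  exact (List.cons.inj h1).1

theorem ker_st {g : G} (hg : g ∈ (act H φ).ker) (x : G ⧸ H) : st H φ g x ∈ (act H φ).ker := by
  rw [MonoidHom.mem_ker] at hg ⊢
  ext1 w
  have h1 : act H φ g (x :: w) = x :: w := by rw [hg]; rfl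
  rw [act_cons] at h1
  exact (List.cons.inj h1).2

end

theorem t_SS : S_SS := by
  intro G _ H φ hfin hne hcore
  classical
  haveI : H.FiniteIndex := hfin
  haveI : Finite (G ⧸ H) := inferInstance
  haveI : Fintype (G ⧸ H) := Fintype.ofFinite _
  refine ⟨G ⧸ H, inferInstance, ?_, act H φ, ?_, fun g x => ⟨g • x, st H φ g x, fun w => rfl⟩⟩
  · have h1 : H.index ≠ 1 := fun h => hne (Subgroup.index_eq_one.mp h)
    have h2 : H.index ≠ 0 := Subgroup.FiniteIndex.index_ne_zero
    have h3 : Fintype.card (G ⧸ H) = H.index := by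
      rw [Subgroup.index, Nat.card_eq_fintype_card]
    omega
  · rw [← MonoidHom.ker_eq_bot_iff]
    have hle : (act H φ).ker ≤ H := by
      intro g hg
      have h1 := ker_smul H φ hg ((1 : G) : G ⧸ H)
      have h2 : ((g * 1 : G) : G ⧸ H) = ((1 : G) : G ⧸ H) := h1
      have h3 := QuotientGroup.eq.mp h2
      rw [mul_one, mul_one] at h3
      exact (Subgroup.inv_mem_iff H).mp h3
    apply hcore _ (MonoidHom.normal_ker _) hle
    intro g hg
    set x0 : G ⧸ H := ((1 : G) : G ⧸ H) with hx0
    set h0 : G := rep H x0 with hh0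
    have hg' : h0 * (g : G) * h0⁻¹ ∈ (act H φ).ker :=
      (MonoidHom.normal_ker (act H φ)).conj_mem _ hg _
    have h1 : c H (h0 * (g : G) * h0⁻¹) x0 = (g : G) := by
      unfold c
      rw [ker_smul H φ hg' x0, ← hh0]
      group
    have h2 := ker_st H φ hg' x0
    have h3 : st H φ (h0 * (g : G) * h0⁻¹) x0 = φ g := by
      unfold st
      congr 1
      exact Subtype.ext h1
    rw [h3] at h2
    exact h2

end Pool.Agent.N921.HJ.SS
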