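import Pool.Agent.N206.HJ.Stm

set_option autoImplicit false

namespace Pool.Agent.N921.HJ.LT

open Pool.Agent.N206.HJ MvPowerSeries

theorem one_step {p : ℕ} (h2 : S_TAY p) (u : Au p) (D : Fin 3 → A p) (s : ℕ) (hs : 2 ≤ s)
    (hu : u ∈ Ga p 1) (hD : ∀ i, D i ∈ M p s) (hA : Ap (s + 1) D u) (l : ℕ) (hl : 1 ≤ l)
    (f : A p) (hf : f ∈ M p l) : u f - f - vf D f ∈ M p (s + l) := by
  have hδ : ∀ i, u (X i) - X i ∈ M p s := by
    intro i
    have e : u (X i) - X i = (u (X i) - X i - D i) + D i := by ring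
    rw [e]
    exact Ideal.add_mem _ (M_anti (by omega) (hA i)) (hD i)
  have k1 := h2 u s (by omega) hu hδ l f hf
  have k2 : vf (fun i => u (X i) - X i - D i) f ∈ M p (s + 1 + (l - 1)) := vf_mem hA hf
  have k3 : vf (fun i => u (X i) - X i) f = vf (fun i => u (X i) - X i - D i) f + vf D f := by
    rw [← vf_add_left]
    congr 1
    funext i
    ring
  have e : u f - f - vf D f = (u f - f - vf (fun i => u (X i) - X i) f)
      + vf (fun i => u (X i) - X i - D i) f := by
    rw [k3]; ring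
  rw [e]
  exact Ideal.add_mem _ (M_anti (by omega) k1) (M_anti (by omega) k2)

theorem two_step {p : ℕ} (h2 : S_TAY p) (u h : Au p) (D E : Fin 3 → A p) (s t : ℕ) (hs : 2 ≤ s)
    (ht : 2 ≤ t) (hu : u ∈ Ga p 1) (hD : ∀ i, D i ∈ M p s) (hE : ∀ i, E i ∈ M p t)
    (hA : Ap (s + 1) D u) (hB : Ap (t + 1) E h) (i : Fin 3) :
    u (h (X i)) - X i - (u (X i) - X i) - (h (X i) - X i) - vf D (E i) ∈ M p (s + t) := by
  have hε : h (X i) - X i ∈ M p t := by
    have e : h (X i) - X i = (h (X i) - X i - E i) + E i := by ring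
    rw [e]
    exact Ideal.add_mem _ (M_anti (by omega) (hB i)) (hE i)
  have k1 := one_step h2 u D s hs hu hD hA t (by omega) _ hε
  have k2 : vf D (h (X i) - X i - E i) ∈ M p (s + (t + 1 - 1)) := vf_mem hD (hB i)
  have e : u (h (X i)) - X i - (u (X i) - X i) - (h (X i) - X i) - vf D (E i)
      = (u (h (X i) - X i) - (h (X i) - X i) - vf D (h (X i) - X i))
        + vf D (h (X i) - X i - E i) := by
    rw [vf_sub D (h (X i) - X i) (E i), map_sub]
    ring
  rw [e]
  exact Ideal.add_mem _ k1 (M_anti (by omega) k2)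

theorem t_LT (p : ℕ) [Fact p.Prime] (h1 : S_DET2 p) (h2 : S_TAY p) : S_LT p := by
  intro u h D E s t hs ht hu hh hD hE hA hB i
  have hus : u ∈ Ga p (s - 1) := by
    apply h1.2 u hu (s - 1)
    intro j
    have e : u (X j) - X j = (u (X j) - X j - D j) + D j := by ring
    rw [e]
    exact Ideal.add_mem _ (M_anti (by omega) (hA j)) (M_anti (by omega) (hD j))
  have hht : h ∈ Ga p (t - 1) := by
    apply h1.2 h hh (t - 1)
    intro j
    have e : h (X j) - X j = (h (X j) - X j - E j) + E j := by ring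
    rw [e]
    exact Ideal.add_mem _ (M_anti (by omega) (hB j)) (M_anti (by omega) (hE j))
  have k1 := two_step h2 u h D E s t hs ht hu hD hE hA hB i
  have k2 := two_step h2 h u E D t s ht hs hh hE hD hB hA i
  -- the element `w`
  have hw : u⁻¹ * h⁻¹ ∈ Ga p 1 := (Ga p 1).mul_mem ((Ga p 1).inv_mem hu) ((Ga p 1).inv_mem hh)
  set η : A p := (u⁻¹ * h⁻¹) (X i) - X i with hη
  have hη2 : η ∈ M p 2 := Ga_X hw i
  -- the commutator on `M 2`
  have k3 : u (h η) - h (u η) ∈ M p (s + t) := by
    have a1 : h η - η ∈ M p (2 + (t - 1)) := Ga_sub hht hη2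
    have a2 : u η - η ∈ M p (2 + (s - 1)) := Ga_sub hus hη2
    have a3 : u (h η - η) - (h η - η) ∈ M p (2 + (t - 1) + (s - 1)) := Ga_sub hus a1
    have a4 : h (u η - η) - (u η - η) ∈ M p (2 + (s - 1) + (t - 1)) := Ga_sub hht a2
    have e : u (h η) - h (u η) = (u (h η - η) - (h η - η)) - (h (u η - η) - (u η - η)) := by
      rw [map_sub u (h η) η, map_sub h (u η) η]; ring
    rw [e]
    exact Ideal.sub_mem _ (M_anti (by omega) a3) (M_anti (by omega) a4)
  have e1 : (u * h * u⁻¹ * h⁻¹) (X i) = u (h (X i)) + u (h η) := by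
    have : (u * h * u⁻¹ * h⁻¹) (X i) = u (h ((u⁻¹ * h⁻¹) (X i))) := rfl
    rw [this, ← map_add, ← map_add]
    congr 2
    rw [hη]; ring
  have e2 : h (u (X i)) + h (u η) = X i := by
    rw [← map_add, ← map_add]
    have : X i + η = (u⁻¹ * h⁻¹) (X i) := by rw [hη]; ring
    rw [this]
    have : u ((u⁻¹ * h⁻¹) (X i)) = h⁻¹ (X i) := inv_ap u _
    rw [this]
    exact inv_ap h _
  have e3 : (u * h * u⁻¹ * h⁻¹) (X i) - X i - br D E i
      = (u (h (X i)) - X i - (u (X i) - X i) - (h (X i) - X i) - vf D (E i))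
        - (h (u (X i)) - X i - (h (X i) - X i) - (u (X i) - X i) - vf E (D i))
        + (u (h η) - h (u η)) := by
    rw [e1]
    have : br D E i = vf D (E i) - vf E (D i) := rfl
    rw [this]
    linear_combination e2
  rw [e3]
  exact Ideal.add_mem _ (Ideal.sub_mem _ k1 (M_anti (by omega) k2)) k3

theorem X_pow_mul_mem {p : ℕ} (a : Fin 3) (q l : ℕ) (f : A p)
    (h : (X a ^ q * f : A p) ∈ M p (q + l)) : f ∈ M p l := by
  intro α hα
  have h1 := h (Finsupp.single a q + α) (by
    have : (Finsupp.single a q + α).degree = (Finsupp.single a q).degree + α.degree :=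
      map_add _ _ _
    rw [this, Finsupp.degree_single]
    omega)
  rw [X_pow_eq, coeff_add_monomial_mul, one_mul] at h1
  exact h1

theorem br_X_pow {p : ℕ} (D E : Fin 3 → A p) (a : Fin 3) (q : ℕ) (hq : p ∣ q) (i : Fin 3) :
    br D (fun j => X a ^ q * E j) i = X a ^ q * br D E i := by
  have e : br D (fun j => X a ^ q * E j) i
      = vf D (X a ^ q * E i) - vf (fun j => X a ^ q * E j) (D i) := rfl
  rw [e, vf_Xpow_mul D a q hq, vf_smul_left, ← mul_sub]
  rfl

theorem finish {p : ℕ} [Fact p.Prime] (h2 : S_EXIST p) (h3 : S_LT p) (g : Au p)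
    (hg : g ∈ Ga p 1) (J s c : ℕ) (hs : 2 ≤ s) (D E : Fin 3 → A p) (hD : ∀ i, D i ∈ M p s)
    (hA : Ap (s + 1) D g) (hE : ∀ i, E i ∈ M p c)
    (hP : ∀ i, ∃ P : MvPolynomial (Fin 3) (ZMod p), E i = (P : A p))
    (i : Fin 3) (hi : br D E i ∉ M p (s + c)) :
    ∃ h ∈ Ga p J, Poly h ∧ g * h * g⁻¹ * h⁻¹ ≠ 1 := by
  have hp2 : 2 ≤ p := (Fact.out : p.Prime).two_le
  obtain ⟨q, hq, hqJ⟩ : ∃ q : ℕ, p ∣ q ∧ J + 3 ≤ q :=
    ⟨p * (J + 3), dvd_mul_right _ _, by nlinarith⟩
  have hEt : ∀ j, (X 0 ^ q * E j : A p) ∈ M p (q + c) := fun j => M_mul (Xpow_mem 0 q) (hE j)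
  obtain ⟨h, hh, hhX⟩ := h2 (q + c - 1) (by omega) (fun j => X 0 ^ q * E j)
    (fun j => M_anti (by omega) (hEt j))
  refine ⟨h, Ga_anti (by omega) hh, ?_, ?_⟩
  · intro j
    obtain ⟨P, hPj⟩ := hP j
    refine ⟨MvPolynomial.X j + MvPolynomial.X 0 ^ q * P, ?_⟩
    rw [hhX j, hPj]
    simp
  · intro hcon
    have hB : Ap (q + c + 1) (fun j => X 0 ^ q * E j) h := by
      intro j
      rw [hhX j]
      have : (X j + X 0 ^ q * E j - X j - X 0 ^ q * E j : A p) = 0 := by ring
      rw [this]
      exact Ideal.zero_mem _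
    have k := h3 g h D (fun j => X 0 ^ q * E j) s (q + c) hs (by omega) hg
      (Ga_anti (by omega) hh) hD hEt hA hB i
    rw [hcon, br_X_pow D E 0 q hq i] at k
    have e : ((1 : Au p) (X i) - X i - X 0 ^ q * br D E i : A p) = - (X 0 ^ q * br D E i) := by
      have : (1 : Au p) (X i) = X i := rfl
      rw [this]; ring
    rw [e] at k
    have k' : (X 0 ^ q * br D E i : A p) ∈ M p (q + (s + c)) := by
      have := (Ideal.neg_mem_iff _).mp k
      exact M_anti (by omega) this
    exact hi (X_pow_mul_mem 0 q (s + c) _ k')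

theorem vf_single {p : ℕ} (c : Fin 3 → A p) (e : Fin 3) (f : A p) :
    vf (fun j => if j = e then c j else 0) f = c e * pderiv (ZMod p) e f := by
  rw [vf, Finset.sum_eq_single e]
  · rw [if_pos rfl]
  · intro b _ hb
    rw [if_neg hb, zero_mul]
  · intro h; exact absurd (Finset.mem_univ e) h

theorem t_CENT (p : ℕ) [Fact p.Prime] (h1 : S_DET2 p) (h2 : S_EXIST p) (h3 : S_LT p) :
    S_CENT p := by
  intro g hg hg1 J
  classical
  -- some variable is moved
  obtain ⟨i0, hi0⟩ : ∃ i, g (X i) - X i ≠ 0 := by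
    by_contra hcon
    push Not at hcon
    refine hg1 (h1.1 g hg 1 (Subgroup.one_mem _) ?_)
    intro i
    have := sub_eq_zero.mp (hcon i)
    rw [this]
    rfl
  have hex : ∃ n : ℕ, ∃ i, g (X i) - X i ∉ M p n := by
    by_contra hcon
    push Not at hcon
    exact hi0 (M_all fun n => hcon n i0)
  obtain ⟨e, he⟩ := Nat.find_spec hex
  have hmin : ∀ m < Nat.find hex, ∀ i, g (X i) - X i ∈ M p m := by
    intro m hm i
    by_contra hcon
    exact Nat.find_min hex hm ⟨i, hcon⟩
  have hge : 3 ≤ Nat.find hex := by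
    by_contra hcon
    exact he (M_anti (by omega) (Ga_X hg e))
  obtain ⟨s, hs⟩ : ∃ s, Nat.find hex = s + 1 := ⟨Nat.find hex - 1, by omega⟩
  rw [hs] at he hmin hge
  have hs2 : 2 ≤ s := by omega
  set D : Fin 3 → A p := fun i => g (X i) - X i with hDdef
  have hD : ∀ i, D i ∈ M p s := hmin s (Nat.lt_succ_self s)
  have hA : Ap (s + 1) D g := by
    intro i
    have : g (X i) - X i - D i = 0 := sub_self _
    rw [this]
    exact Ideal.zero_mem _
  have heD : D e ∉ M p (s + 1) := he
  by_cases hcase : ∃ f i : Fin 3, pderiv (ZMod p) f (D i) ∉ M p s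
  · obtain ⟨f, i, hfi⟩ := hcase
    refine finish h2 h3 g hg J s 0 hs2 D (fun j => if j = f then 1 else 0) hD hA
      (fun j => M_zero _) ?_ i ?_
    · intro j
      by_cases hj : j = f
      · exact ⟨1, by simp [hj]⟩
      · exact ⟨0, by simp [hj]⟩
    · have e1 : br D (fun j => if j = f then (1 : A p) else 0) i = - pderiv (ZMod p) f (D i) := by
        have e2 : br D (fun j => if j = f then (1 : A p) else 0) i
            = vf D (if i = f then (1 : A p) else 0)
              - vf (fun j => if j = f then (1 : A p) else 0) (D i) := rfl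
        have e3 : vf D (if i = f then (1 : A p) else 0) = 0 := by
          rw [vf]
          apply Finset.sum_eq_zero
          intro j _
          split_ifs
          · rw [Derivation.map_one_eq_zero, mul_zero]
          · rw [map_zero, mul_zero]
        rw [e2, e3, vf_single (fun _ => (1 : A p)) f (D i)]
        ring
      rw [e1]
      intro hcon
      exact hfi ((Ideal.neg_mem_iff _).mp hcon)
  · push Not at hcase
    refine finish h2 h3 g hg J s 1 hs2 D (fun j => if j = e then X e else 0) hD hA ?_ ?_ e ?_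
    · intro j
      split_ifs
      · exact X_mem e
      · exact Ideal.zero_mem _
    · intro j
      by_cases hj : j = e
      · exact ⟨MvPolynomial.X e, by simp [hj]⟩
      · exact ⟨0, by simp [hj]⟩
    · have e1 : br D (fun j => if j = e then (X e : A p) else 0) e
          = D e - X e * pderiv (ZMod p) e (D e) := by
        have e2 : br D (fun j => if j = e then (X e : A p) else 0) e
            = vf D (if e = e then (X e : A p) else 0)
              - vf (fun j => if j = e then (X e : A p) else 0) (D e) := rfl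
        rw [e2, if_pos rfl, vf_X, vf_single (fun _ => (X e : A p)) e (D e)]
      rw [e1]
      intro hcon
      have h4 : X e * pderiv (ZMod p) e (D e) ∈ M p (1 + s) := M_mul (X_mem e) (hcase e e)
      have h5 : D e = (D e - X e * pderiv (ZMod p) e (D e)) + X e * pderiv (ZMod p) e (D e) := by
        ring
      apply heD
      rw [h5]
      exact Ideal.add_mem _ hcon (M_anti (by omega) h4)

end Pool.Agent.N921.HJ.LT
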